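import Pool.Agent.W518.EG.Final3
import Pool.Agent.W500.EG.M

/-!
# MP_4f5420_ag: gonality of étale double covers of odd-genus curves, negative answer

The equivalence `gon(C~) ≤ 2 i + 1 ↔ η ∈ C_i - C_i` for curves `C` of genus `2 i + 1` and maximal
gonality `i + 2` fails for `i = 3`. The curve `C` is the cyclic cover `t ^ 7 = T` of the elliptic curve
`W ^ 2 = (z ^ 2 - 4) (4 z ^ 2 - 12 z + 41)`, where
`162 T = (z + 2) (2 z ^ 2 - 5 z + 11) ^ 2 - 162 + (2 z ^ 2 - 5 z + 11) (z + 1) W` has divisor `5 Q - 5 P`,
and the étale double cover is the one defined by `z ^ 2 - 4`.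
-/

set_option autoImplicit false

open Pool.Agent.Helper395.CS hiding genus
open Pool.Agent.Helper395.BC
open Pool.Agent.W518.EG

namespace Pool.Agent.Results.MP_4f5420_ag.GonalitySeven

/-- There are a curve (function field `K`) of genus 7 and gonality 5 and a nontrivial line bundle `η` on
it with `η ⊗ η ≅ 𝒪` such that the étale double cover attached to `η` has gonality at most `7`, but `η`
is not in the difference variety `C₃ - C₃`. -/
theorem result :
    ∃ (K : Type) (_ : Field K) (_ : Algebra ℂ K) (η : LineBundle K)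
      (K' : Type) (_ : Field K') (_ : Algebra ℂ K') (_ : Algebra K K'),
      IsCurve K ∧ genus K = 7 ∧ gonality K = 5 ∧
      (lmul η η).Iso (one K) ∧ ¬ η.Iso (one K) ∧ IsEtaleDoubleCover η K' ∧
      gonality K' ≤ 7 ∧ ¬ InDifference η 3 :=
  final3 Pool.Agent.W500.EG.M.s_M

end Pool.Agent.Results.MP_4f5420_ag.GonalitySeven
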